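import Pool.Agent.W5h5.BG4

/-!
For every `n ≥ 2`, the type B permutahedron `Bₙ` is facet-Hamiltonian.
-/

namespace Pool.Agent.Results.MP_b3c0e4_co.AllDimensions

open Pool.Agent.W5h5.BG

theorem result : ∀ n : ℕ, 2 ≤ n → FacetHamiltonian (typeBPermutahedron n) :=
  fun n hn => facet_hamiltonian n hn

end Pool.Agent.Results.MP_b3c0e4_co.AllDimensions
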